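import Pool.Agent.Helper77.PPB.Goals2
import Pool.Agent.Helper76.PP.NTVG
import Pool.Agent.Helper72.RD.TOR
import Pool.Agent.Helper22.RP.PHI

/-!
# Packet PPB-B_NTV: characters which are not congruent to the cyclotomic character
-/

namespace Pool.Agent.Helper58.PPB

open NumberField Polynomial Module IsDedekindDomain TensorProduct
open _root_.Pool.Agent.Helper51.SigLeo
open _root_.Pool.Agent.Helper51.RP _root_.Pool.Agent.Helper42.RD
open _root_.Pool.Agent.Helper42.PP (nsig)
open _root_.Pool.Agent.Helper42.PP1 (SitW NTV)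
open _root_.Pool.Agent.Helper22.RP (io toZMod_surj eval_lt)
open _root_.Pool.Agent.Helper22.PP (nsig_eq)
open _root_.Pool.Agent.Helper72.RD (exists_gen pow_act)

theorem small {p : ℕ} [Fact p.Prime] {ζ : ℂ_[p]} {Φ : ℤ_[p][X]} {P : (ZMod p)[X]}
    (hz : ‖ζ‖ ≤ 1) (hroot : eval₂ (io p ℂ_[p]) ζ Φ = 0) (hmap : P = Φ.map PadicInt.toZMod)
    (U : ℤ_[p][X]) (hU : P ∣ U.map PadicInt.toZMod) : ‖eval₂ (io p ℂ_[p]) ζ U‖ < 1 := by
  obtain ⟨V', hV'⟩ := hU
  obtain ⟨V, rfl⟩ := Polynomial.map_surjective _ toZMod_surj V'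
  have h1 : (U - Φ * V).map PadicInt.toZMod = 0 := by
    rw [Polynomial.map_sub, Polynomial.map_mul, ← hmap, hV', sub_self]
  have h2 := eval_lt (U - Φ * V) hz h1
  rwa [eval₂_sub, eval₂_mul, hroot, zero_mul, sub_zero] at h2

theorem b_ntv : _root_.Pool.Agent.Helper77.PPB.B_NTV := by
  intro p hpF K _ _ M K₁ M₁ _ _ _ _ _ _ hM hK₁ ε δ P hW χ₀ Φ hord hPhi hg
  obtain ⟨g, r, hgr, hnorm⟩ := hg
  have hp : p.Prime := hpF.out
  have hgK : IsGalois K K₁ := hW.gK
  have hgMK : IsGalois K M₁ := hW.gMK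
  -- a power of `δ`
  have hcard : Nat.card (M ≃ₐ[K] M) = finrank K M := IsGalois.card_aut_eq_finrank K M
  have htop : Subgroup.zpowers δ = ⊤ := by
    apply Subgroup.eq_top_of_card_eq
    rw [Nat.card_zpowers, hord, hcard]
  obtain ⟨t, ht⟩ : ∃ t : ℕ, δ ^ t = AlgEquiv.restrictNormalHom M g := by
    have h1 : AlgEquiv.restrictNormalHom M g ∈ Subgroup.zpowers δ := by
      rw [htop]
      exact Subgroup.mem_top _
    rw [← mem_powers_iff_mem_zpowers] at h1
    exact h1
  have hζ : ‖((χ₀ δ : ℂ_[p]ˣ) : ℂ_[p])‖ = 1 := by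
    have hm : finrank K M ≠ 0 := by
      have := hPhi.one_lt
      omega
    have h1 : ‖((χ₀ δ : ℂ_[p]ˣ) : ℂ_[p])‖ ^ finrank K M = 1 := by
      rw [← norm_pow, hPhi.prim.pow_eq_one, norm_one]
    exact (pow_eq_one_iff_of_nonneg (norm_nonneg _) hm).1 h1
  have hkey : ¬ P ∣ X ^ t - C ((r : ZMod p)) := by
    intro hdvd
    have h1 := small hζ.le hPhi.root hPhi.map (X ^ t - C (r : ℤ_[p])) (by
      rw [Polynomial.map_sub, Polynomial.map_pow, map_X, map_C, map_natCast]
      exact hdvd)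
    rw [eval₂_sub, eval₂_pow, eval₂_X, eval₂_C, map_natCast] at h1
    rw [← ht, map_pow, Units.val_pow_eq_pow_val] at hnorm
    rw [hnorm] at h1
    exact lt_irrefl _ h1
  constructor
  · -- the roots of unity
    by_cases hprim : ∃ ξ : M, IsPrimitiveRoot ξ p
    · obtain ⟨ξ₀, hξ₀⟩ := hprim
      obtain ⟨γ, s, hs, hγs, hγ⟩ := exists_gen M
      have hδγ : (δ γ) ^ s = 1 := by rw [← map_pow, hγs, map_one]
      obtain ⟨i, hi⟩ := hγ (δ γ) s hs hδγ
      have hact : ∀ (ξ : M) (k : ℕ), 0 < k → ξ ^ k = 1 → δ ξ = ξ ^ i := by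
        intro ξ k hk hξ
        obtain ⟨j, hj⟩ := hγ ξ k hk hξ
        rw [hj, map_pow, hi, ← pow_mul, ← pow_mul, mul_comm]
      refine ⟨i, ?_, fun ξ n hξ => hact ξ _ (pow_pos hp.pos n) hξ⟩
      intro hP
      apply hkey
      have h1 : X - C (i : ZMod p) ∣ P := dvd_iff_isRoot.2 hP
      have h2 : P ∣ X - C (i : ZMod p) := (irreducible_X_sub_C _).dvd_symm hW.irr h1
      have h3 : P ∣ X ^ t - C (i : ZMod p) ^ t := h2.trans (sub_dvd_pow_sub_pow _ _ t)
      have h4 : (δ ^ t) ξ₀ = ξ₀ ^ (i ^ t) := pow_act δ (hact ξ₀ p hp.pos hξ₀.pow_eq_one) t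
      have h5 : (δ ^ t) ξ₀ = ξ₀ ^ r := by
        rw [ht]
        apply Subtype.ext
        have h6 : ((AlgEquiv.restrictNormalHom M g ξ₀ : M) : AlgebraicClosure K) =
            g (ξ₀ : AlgebraicClosure K) := AlgEquiv.restrictNormal_commutes g M ξ₀
        rw [h6, hgr _ (by
          have := congrArg (fun z : M ↦ (z : AlgebraicClosure K)) hξ₀.pow_eq_one
          simpa using this)]
        rfl
      have h7 : ((i ^ t : ℕ) : ZMod p) = (r : ZMod p) :=
        (_root_.Pool.Agent.Helper22.PP.eps_congr hξ₀).1 (h4.symm.trans h5)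
      rw [← h7]
      push_cast
      rw [map_pow]
      exact h3
    · refine ⟨0, ?_, ?_⟩
      · intro hP
        rw [Nat.cast_zero] at hP
        obtain ⟨Q, hQ⟩ := hW.dvdP
        have h1 := congrArg (Polynomial.eval (0 : ZMod p)) hQ
        have hm : finrank K M ≠ 0 := by
          have := hPhi.one_lt
          omega
        rw [eval_mul, hP, zero_mul, eval_sub, eval_pow, eval_X, eval_one, zero_pow hm] at h1
        simp at h1
      · intro ξ n hξ
        have h1 : ξ = 1 := by
          induction n with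
          | zero => simpa using hξ
          | succ n ih =>
            apply ih
            by_contra hne
            apply hprim
            refine ⟨ξ ^ p ^ n, ?_⟩
            have h2 : (ξ ^ p ^ n) ^ p = 1 := by rw [← pow_mul, ← pow_succ]; exact hξ
            exact (IsPrimitiveRoot.iff_orderOf).2 (orderOf_eq_prime h2 hne)
        rw [h1]; simp
  · -- the condition `NTV`
    have hres : ∀ (N : IntermediateField K (AlgebraicClosure K)) [Normal K N] (y : N),
        ((AlgEquiv.restrictNormalHom N g y : N) : AlgebraicClosure K) =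
          g (y : AlgebraicClosure K) := fun N _ y ↦ AlgEquiv.restrictNormal_commutes g N y
    refine _root_.Pool.Agent.Helper76.PP.ntv_gen p K M K₁ M₁ ε δ P hW
      ⟨AlgEquiv.restrictNormalHom M₁ g, t, AlgEquiv.restrictNormalHom K₁ g, ?_, ?_, ?_⟩
    · intro y
      apply Subtype.ext
      rw [hres M₁, hM, hM, ht, hres M]
    · intro y
      apply Subtype.ext
      rw [hres M₁, hK₁, hK₁, hres K₁]
    · have hε : AlgEquiv.restrictNormalHom K₁ g ε = ε ^ r := by
        apply Subtype.ext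
        rw [hres K₁, hgr _ (by
          have := congrArg (fun z : K₁ ↦ (z : AlgebraicClosure K)) hW.prim.pow_eq_one
          simpa using this)]
        rfl
      rw [nsig_eq hW.prim hε]
      intro h
      apply hkey
      rw [← AdjoinRoot.mk_eq_zero, map_sub, map_pow, AdjoinRoot.mk_X, h]
      have : AdjoinRoot.mk P (C (r : ZMod p)) = algebraMap (ZMod p) (AdjoinRoot P) (r : ZMod p) :=
        rfl
      rw [this, sub_self]

end Pool.Agent.Helper58.PPB
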